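import Mathlib

/-!
Sequences with a contractive linear recurrence converge.
-/

set_option autoImplicit false

namespace TH465.Fr

open Finset Filter Topology

/-- If `z (n+K) = Σ g i z (n+i) + h n` with `Σ |g i| ≤ 1/2` and `h → s` then `z → s / (1 - Σ g i)`. -/
theorem contraction (K : ℕ) (g : ℕ → ℝ) (hg : ∑ i ∈ range K, |g i| ≤ 1 / 2) (z h : ℕ → ℝ) (s : ℝ)
    (hz : ∀ n, z (n + K) = ∑ i ∈ range K, g i * z (n + i) + h n)
    (hh : Tendsto h atTop (𝓝 s)) :
    Tendsto z atTop (𝓝 (s / (1 - ∑ i ∈ range K, g i))) := by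
  set G := ∑ i ∈ range K, g i with hG
  have hG1 : G ≤ 1 / 2 := (Finset.sum_le_sum fun i _ => le_abs_self (g i)).trans hg
  have hG2 : 1 - G ≠ 0 := by linarith
  set L := s / (1 - G) with hL
  have hLs : L = G * L + s := by
    rw [hL]
    field_simp
    ring
  set r : ℕ → ℝ := fun n => z n - L with hr
  set t : ℕ → ℝ := fun n => h n - s with ht
  have hrec : ∀ n, r (n + K) = ∑ i ∈ range K, g i * r (n + i) + t n := by
    intro n
    simp only [hr, ht, mul_sub, Finset.sum_sub_distrib, ← Finset.sum_mul]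
    rw [hz n, ← hG]
    linarith
  have ht0 : Tendsto t atTop (𝓝 0) := by
    have := hh.sub_const s
    simpa using this
  have hstep : ∀ n B, 0 ≤ B → (∀ i < K, |r (n + i)| ≤ B) → |r (n + K)| ≤ B / 2 + |t n| := by
    intro n B hB0 hB
    rw [hrec n]
    refine (abs_add_le _ _).trans (add_le_add ?_ le_rfl)
    refine (Finset.abs_sum_le_sum_abs _ _).trans ?_
    have hB' : ∀ i ∈ range K, |g i * r (n + i)| ≤ |g i| * B := by
      intro i hi
      rw [abs_mul]
      exact mul_le_mul_of_nonneg_left (hB i (mem_range.mp hi)) (abs_nonneg _)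
    refine (Finset.sum_le_sum hB').trans ?_
    rw [← Finset.sum_mul]
    nlinarith
  obtain ⟨T, hT⟩ : ∃ T, ∀ n, |t n| ≤ T := by
    obtain ⟨T, hT⟩ := ht0.abs.bddAbove_range
    exact ⟨T, fun n => hT ⟨n, rfl⟩⟩
  have hT0 : 0 ≤ T := (abs_nonneg _).trans (hT 0)
  set B : ℝ := ∑ i ∈ range K, |r i| + 2 * T + 1 with hB
  have hsum0 : 0 ≤ ∑ i ∈ range K, |r i| := Finset.sum_nonneg fun i _ => abs_nonneg _
  have hBpos : 0 < B := by linarith
  have hbound : ∀ n, |r n| ≤ B := by
    intro n
    induction n using Nat.strong_induction_on with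
    | _ n ih =>
      by_cases hn : n < K
      · have : |r n| ≤ ∑ i ∈ range K, |r i| :=
          Finset.single_le_sum (f := fun i => |r i|) (fun i _ => abs_nonneg _) (mem_range.mpr hn)
        linarith
      · obtain ⟨m, rfl⟩ : ∃ m, n = m + K := ⟨n - K, by omega⟩
        have h1 := hstep m B hBpos.le (fun i hi => ih _ (by omega))
        have h2 := hT m
        linarith
  have hdecay : ∀ j : ℕ, ∃ N, ∀ n ≥ N, |r n| ≤ B * (3 / 4) ^ j := by
    intro j
    induction j with
    | zero => exact ⟨0, fun n _ => by simpa using hbound n⟩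
    | succ j ih =>
      obtain ⟨N, hN⟩ := ih
      set β := B * (3 / 4) ^ j with hβ
      have hβ0 : 0 < β := by positivity
      obtain ⟨N', hN'⟩ := (Metric.tendsto_atTop.mp ht0) (β / 4) (by positivity)
      refine ⟨max N N' + K, fun n hn => ?_⟩
      obtain ⟨m, rfl⟩ : ∃ m, n = m + K := ⟨n - K, by omega⟩
      have hm : max N N' ≤ m := by omega
      have h1 := hstep m β hβ0.le (fun i hi => hN _ (by omega))
      have h2 := hN' m (by omega)
      rw [Real.dist_eq, sub_zero] at h2
      have h3 : B * (3 / 4) ^ (j + 1) = 3 / 4 * β := by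
        rw [hβ]; ring
      rw [h3]
      linarith
  have hr0 : Tendsto r atTop (𝓝 0) := by
    rw [Metric.tendsto_atTop]
    intro ε hε
    obtain ⟨j, hj⟩ : ∃ j : ℕ, (3 / 4 : ℝ) ^ j < ε / B :=
      exists_pow_lt_of_lt_one (by positivity) (by norm_num)
    obtain ⟨N, hN⟩ := hdecay j
    refine ⟨N, fun n hn => ?_⟩
    rw [Real.dist_eq, sub_zero]
    refine (hN n hn).trans_lt ?_
    rw [lt_div_iff₀ hBpos] at hj
    linarith
  have := hr0.add_const L
  simpa [hr] using this

/-- The ratio `b n / (n a n)` for two sequences with coupled recurrences. Here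
`x n = a n / μ ^ n` and `y n = b n / μ ^ n`. -/
theorem ratio_limit (K : ℕ) (g : ℕ → ℝ) (hg : ∑ i ∈ range K, |g i| ≤ 1 / 2) (x y s : ℕ → ℝ)
    (σ : ℝ)
    (hx : ∀ n, x (n + 1 + K) - x (n + K) = ∑ i ∈ range K, g i * (x (n + 1 + i) - x (n + i)))
    (hy : ∀ n, y (n + 1 + K) - y (n + K) =
      ∑ i ∈ range K, g i * (y (n + 1 + i) - y (n + i)) + s n)
    (hs : ∀ c, Tendsto x atTop (𝓝 c) → Tendsto s atTop (𝓝 (σ * c)))
    (h0 : 0 < x K - ∑ i ∈ range K, g i * x i) :
    Tendsto (fun n => y n / (n * x n)) atTop (𝓝 (σ / (1 - ∑ i ∈ range K, g i))) := by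
  set G := ∑ i ∈ range K, g i with hG
  have hG1 : G ≤ 1 / 2 := (Finset.sum_le_sum fun i _ => le_abs_self (g i)).trans hg
  set u := x K - ∑ i ∈ range K, g i * x i with hu
  -- the invariant
  have hinv : ∀ n, x (n + K) - ∑ i ∈ range K, g i * x (n + i) = u := by
    intro n
    induction n with
    | zero => simp [hu]
    | succ n ih =>
      have h1 := hx n
      simp only [mul_sub, Finset.sum_sub_distrib] at h1
      linarith
  have hxc : Tendsto x atTop (𝓝 (u / (1 - G))) := by
    refine contraction K g hg x (fun _ => u) u (fun n => ?_) tendsto_const_nhds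
    have := hinv n
    linarith
  set c := u / (1 - G) with hc
  have hcpos : 0 < c := div_pos h0 (by linarith)
  have hse := hs c hxc
  have he : Tendsto (fun n => y (n + 1) - y n) atTop (𝓝 (σ * c / (1 - G))) := by
    refine contraction K g hg (fun n => y (n + 1) - y n) s (σ * c) (fun n => ?_) hse
    have := hy n
    rw [show n + 1 + K = n + K + 1 by omega] at this
    rw [this]
    congr 1
    refine Finset.sum_congr rfl fun i _ => ?_
    rw [show n + 1 + i = n + i + 1 by omega]
  have hces := he.cesaro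
  have hyn : Tendsto (fun n : ℕ => (n : ℝ)⁻¹ * y n) atTop (𝓝 (σ * c / (1 - G))) := by
    have h1 : Tendsto (fun n : ℕ => (n : ℝ)⁻¹ * y 0) atTop (𝓝 (0 * y 0)) :=
      tendsto_inv_atTop_nhds_zero_nat.mul_const _
    have h2 := hces.add h1
    rw [zero_mul, add_zero] at h2
    refine h2.congr fun n => ?_
    rw [Finset.sum_range_sub]
    ring
  have hlim := hyn.div hxc hcpos.ne'
  have hval : σ * c / (1 - G) / c = σ / (1 - G) := by
    field_simp
  rw [hval] at hlim
  refine hlim.congr fun n => ?_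
  simp only [Pi.div_apply]
  rw [inv_mul_eq_div, div_div]

end TH465.Fr
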