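import Mathlib

/-!
Counting words that avoid a given word: recurrences for an unbordered word and for
the word `(011)^16`.
-/

set_option autoImplicit false

namespace TH465.Fr

open Finset

/-- The words of length `n`. -/
def W (n : ℕ) : Finset (List Bool) := (Finset.univ : Finset (Fin n → Bool)).image List.ofFn

theorem mem_W {n : ℕ} {u : List Bool} : u ∈ W n ↔ u.length = n := by
  simp only [W, mem_image, mem_univ, true_and]
  constructor
  · rintro ⟨f, rfl⟩
    simp
  · rintro rfl
    exact ⟨u.get, List.ofFn_get u⟩

/-- The words of length `n` avoiding `w`. -/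
def Om (w : List Bool) (n : ℕ) : Finset (List Bool) := (W n).filter fun u => ¬ w <:+: u

/-- The words of length `n` in which `w` occurs exactly once, as a prefix. -/
def Pr (w : List Bool) (n : ℕ) : Finset (List Bool) :=
  (W n).filter fun u => w <+: u ∧ ¬ w <:+: u.tail

theorem mem_Om {w u : List Bool} {n : ℕ} : u ∈ Om w n ↔ u.length = n ∧ ¬ w <:+: u := by
  simp [Om, mem_W]

theorem mem_Pr {w u : List Bool} {n : ℕ} :
    u ∈ Pr w n ↔ u.length = n ∧ w <+: u ∧ ¬ w <:+: u.tail := by
  simp [Pr, mem_W]

/-- Adding a letter in front. -/
theorem sum_cons (w : List Bool) (n : ℕ) (g : List Bool → ℝ) :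
    ∑ u ∈ Om w (n + 1), g u + ∑ u ∈ Pr w (n + 1), g u =
      ∑ u ∈ Om w n, (g (false :: u) + g (true :: u)) := by
  have hdisj : Disjoint (Om w (n + 1)) (Pr w (n + 1)) := by
    rw [Finset.disjoint_left]
    intro u h1 h2
    rw [mem_Om] at h1
    rw [mem_Pr] at h2
    exact h1.2 h2.2.1.isInfix
  rw [← Finset.sum_union hdisj]
  have hset : Om w (n + 1) ∪ Pr w (n + 1) =
      (Om w n ×ˢ (Finset.univ : Finset Bool)).image (fun p => p.2 :: p.1) := by
    ext u
    rw [mem_union, mem_Om, mem_Pr, mem_image]
    constructor
    · intro h
      have hlen : u.length = n + 1 := by rcases h with h | h <;> exact h.1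
      obtain ⟨c, u', rfl⟩ : ∃ c u', u = c :: u' := by
        cases u with
        | nil => simp at hlen
        | cons c u' => exact ⟨c, u', rfl⟩
      refine ⟨(u', c), ?_, rfl⟩
      rw [mem_product, mem_Om]
      refine ⟨⟨by simpa using hlen, ?_⟩, mem_univ _⟩
      rcases h with h | h
      · exact fun h' => h.2 (h'.trans (List.suffix_cons c u').isInfix)
      · exact h.2.2
    · rintro ⟨⟨u', c⟩, h, rfl⟩
      rw [mem_product, mem_Om] at h
      have h1 := h.1.1
      have h2 := h.1.2
      simp only at h1 h2
      by_cases hp : w <+: c :: u'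
      · exact Or.inr ⟨by simp [h1], hp, by simpa using h2⟩
      · refine Or.inl ⟨by simp [h1], ?_⟩
        rw [List.infix_cons_iff]
        rintro (h3 | h3)
        · exact hp h3
        · exact h2 h3
  rw [hset, Finset.sum_image, Finset.sum_product]
  · refine Finset.sum_congr rfl fun u _ => ?_
    simp [add_comm]
  · rintro ⟨u, c⟩ _ ⟨u', c'⟩ _ h
    simp only [List.cons.injEq] at h
    simp [h.1, h.2]

/-- Occurrences of `w` in `s ++ u` for a proper suffix `s` of `w`. -/
theorem occ_split (w u : List Bool) : ∀ s : List Bool, s.length < w.length → w <:+: s ++ u →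
    w <:+: u ∨ ∃ s', s' <:+ s ∧ s' ≠ [] ∧ s' <+: w ∧ w <+: s' ++ u := by
  intro s
  induction s with
  | nil =>
    intro _ h
    exact Or.inl (by simpa using h)
  | cons c s ih =>
    intro hlen h
    rw [List.cons_append, List.infix_cons_iff] at h
    rcases h with h | h
    · refine Or.inr ⟨c :: s, List.suffix_refl _, by simp, ?_, h⟩
      have h1 : c :: s <+: c :: (s ++ u) := by
        have := List.prefix_append (c :: s) u
        simpa only [List.cons_append] using this
      exact List.prefix_of_prefix_length_le h1 h hlen.le
    · rcases ih (by simp at hlen; omega) h with h1 | ⟨s', h1, h2, h3, h4⟩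
      · exact Or.inl h1
      · exact Or.inr ⟨s', h1.trans (List.suffix_cons c s), h2, h3, h4⟩

/-- The recurrence for an unbordered word. -/
theorem sum_Pr_unbordered (v : List Bool) (k : ℕ) (hk : v.length = k) (hk0 : 0 < k)
    (hv : ∀ s, s <:+ v → s <+: v → s = [] ∨ s = v) (n : ℕ) (g : List Bool → ℝ) :
    ∑ u ∈ Pr v (n + k), g u = ∑ u ∈ Om v n, g (v ++ u) := by
  have hset : Pr v (n + k) = (Om v n).image (fun u => v ++ u) := by
    ext x
    rw [mem_Pr, mem_image]
    constructor
    · rintro ⟨h1, ⟨u, rfl⟩, h3⟩
      refine ⟨u, ?_, rfl⟩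
      rw [mem_Om]
      rw [List.length_append] at h1
      refine ⟨by omega, fun h => h3 ?_⟩
      have hvne : v ≠ [] := by
        rintro rfl
        simp at hk
        omega
      rw [List.tail_append_of_ne_nil hvne]
      exact h.trans (List.suffix_append _ _).isInfix
    · rintro ⟨u, hu, rfl⟩
      rw [mem_Om] at hu
      have hvne : v ≠ [] := by
        rintro rfl
        simp at hk
        omega
      refine ⟨by rw [List.length_append]; omega, List.prefix_append _ _, ?_⟩
      rw [List.tail_append_of_ne_nil hvne]
      intro h
      have hlt : v.tail.length < v.length := by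
        rw [List.length_tail]
        omega
      rcases occ_split v u v.tail hlt h with h1 | ⟨s', h1, h2, h3, _⟩
      · exact hu.2 h1
      · rcases hv s' (h1.trans (List.tail_suffix v)) h3 with h4 | h4
        · exact h2 h4
        · have := h1.length_le
          rw [h4] at this
          omega
  rw [hset, Finset.sum_image]
  intro a _ b _ h
  exact List.append_cancel_left h

/-- The period block. -/
def rr : List Bool := [false, true, true]

/-- The word `(011)^16`. -/
def ww : List Bool := (List.replicate 16 rr).flatten

theorem ww_comm : ww ++ rr = rr ++ ww := by decide +kernel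

theorem ww_length : ww.length = 48 := by decide +kernel

theorem ww_cons : ∃ t, ww = false :: t := ⟨ww.tail, by decide +kernel⟩

theorem rr_prefix : rr <+: ww := by decide +kernel

theorem ww_borders : ∀ s ∈ ww.tails, s <+: ww → s = [] ∨ s = ww ∨ s ++ rr <+: ww := by
  decide +kernel

theorem ww_occ (c : Bool) (u : List Bool) (hu : ¬ ww <:+: u) :
    ww <:+: (ww ++ (c :: u)).tail ↔ rr <+: c :: u := by
  have hne : ww ≠ [] := by
    obtain ⟨t, ht⟩ := ww_cons
    simp [ht]
  constructor
  · intro h
    rw [List.tail_append_of_ne_nil hne] at h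
    have hlt : ww.tail.length < ww.length := by
      rw [List.length_tail, ww_length]
      norm_num
    rcases occ_split ww (c :: u) ww.tail hlt h with h1 | ⟨s', h1, h2, h3, h4⟩
    · rw [List.infix_cons_iff] at h1
      rcases h1 with h1 | h1
      · exact rr_prefix.trans h1
      · exact absurd h1 hu
    · have hs : s' <:+ ww := h1.trans (List.tail_suffix ww)
      rcases ww_borders s' ((List.mem_tails _ _).mpr hs) h3 with h5 | h5 | h5
      · exact absurd h5 h2
      · have := h1.length_le
        rw [h5] at this
        omega
      · have h6 := h5.trans h4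
        rwa [List.prefix_append_right_inj] at h6
  · rintro ⟨u', hu'⟩
    rw [← hu', ← List.append_assoc, ww_comm, List.append_assoc]
    have : (rr ++ (ww ++ u')).tail = [true, true] ++ (ww ++ u') := rfl
    rw [this]
    exact ((List.prefix_append ww u').isInfix).trans (List.suffix_append _ _).isInfix

/-- The recurrence for `(011)^16`. -/
theorem sum_Pr_ww (n : ℕ) (g : List Bool → ℝ) :
    ∑ u ∈ Pr ww (n + 51), g u + ∑ u ∈ Om ww n, g (ww ++ (rr ++ u)) =
      ∑ u ∈ Om ww (n + 2), (g (ww ++ false :: u) + g (ww ++ true :: u)) := by
  have hinj : Function.Injective (fun u : List Bool => ww ++ (rr ++ u)) := by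
    intro a b h
    exact List.append_cancel_left (List.append_cancel_left h)
  have hsum2 : ∑ u ∈ Om ww n, g (ww ++ (rr ++ u)) =
      ∑ x ∈ (Om ww n).image (fun u => ww ++ (rr ++ u)), g x := by
    rw [Finset.sum_image]
    intro a _ b _ h
    exact hinj h
  have hsum3 : ∑ u ∈ Om ww (n + 2), (g (ww ++ false :: u) + g (ww ++ true :: u)) =
      ∑ x ∈ (Om ww (n + 2) ×ˢ (Finset.univ : Finset Bool)).image
        (fun p => ww ++ (p.2 :: p.1)), g x := by
    rw [Finset.sum_image, Finset.sum_product]
    · refine Finset.sum_congr rfl fun u _ => ?_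
      simp [add_comm]
    · rintro ⟨u, c⟩ _ ⟨u', c'⟩ _ h
      have h' := List.append_cancel_left h
      simp only [List.cons.injEq] at h'
      simp [h'.1, h'.2]
  rw [hsum2, hsum3, ← Finset.sum_union]
  · refine Finset.sum_congr ?_ fun _ _ => rfl
    ext x
    rw [mem_union, mem_Pr, mem_image, mem_image]
    constructor
    · rintro (⟨h1, ⟨y, rfl⟩, h3⟩ | ⟨u, hu, rfl⟩)
      · rw [List.length_append, ww_length] at h1
        obtain ⟨c, u, rfl⟩ : ∃ c u', y = c :: u' := by
          cases y with
          | nil => simp at h1
          | cons c u' => exact ⟨c, u', rfl⟩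
        refine ⟨(u, c), ?_, rfl⟩
        rw [mem_product, mem_Om]
        rw [List.length_cons] at h1
        refine ⟨⟨by change u.length = n + 2; omega, fun h => h3 ?_⟩, mem_univ _⟩
        change ww <:+: u at h
        have hne : ww ≠ [] := by
          obtain ⟨t, ht⟩ := ww_cons
          simp [ht]
        rw [List.tail_append_of_ne_nil hne]
        exact (h.trans (List.suffix_cons c u).isInfix).trans (List.suffix_append _ _).isInfix
      · rw [mem_Om] at hu
        refine ⟨(true :: true :: u, false), ?_, rfl⟩
        rw [mem_product, mem_Om]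
        refine ⟨⟨by simp [hu.1], ?_⟩, mem_univ _⟩
        obtain ⟨t, ht⟩ := ww_cons
        intro h
        rw [List.infix_cons_iff, List.infix_cons_iff] at h
        rcases h with h | h | h
        · rw [ht, List.cons_prefix_cons] at h
          exact absurd h.1 (by decide)
        · rw [ht, List.cons_prefix_cons] at h
          exact absurd h.1 (by decide)
        · exact hu.2 h
    · rintro ⟨⟨u, c⟩, h, rfl⟩
      rw [mem_product, mem_Om] at h
      have h1 := h.1.1
      have h2 := h.1.2
      simp only at h1 h2
      by_cases hr : rr <+: c :: u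
      · right
        obtain ⟨u', hu'⟩ := hr
        refine ⟨u', ?_, by rw [hu']⟩
        rw [mem_Om]
        have hu2 : u = true :: true :: u' := by
          have : c :: u = false :: true :: true :: u' := hu'.symm
          simp only [List.cons.injEq] at this
          exact this.2
        rw [hu2] at h1 h2
        refine ⟨by simpa using h1, fun h' => h2 ?_⟩
        exact h'.trans ((List.suffix_cons _ _).trans (List.suffix_cons _ _)).isInfix
      · left
        refine ⟨?_, List.prefix_append _ _, ?_⟩
        · change (ww ++ (c :: u)).length = n + 51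
          rw [List.length_append, ww_length, List.length_cons]
          omega
        · rw [ww_occ c u h2]
          exact hr
  · rw [Finset.disjoint_left]
    rintro x h1 h2
    rw [mem_Pr] at h1
    rw [mem_image] at h2
    obtain ⟨u, hu, rfl⟩ := h2
    refine h1.2.2 ?_
    rw [mem_Om] at hu
    have : rr ++ u = false :: (true :: true :: u) := rfl
    rw [this, ww_occ]
    · exact ⟨u, rfl⟩
    · obtain ⟨t, ht⟩ := ww_cons
      intro h
      rw [List.infix_cons_iff, List.infix_cons_iff] at h
      rcases h with h | h | h
      · rw [ht, List.cons_prefix_cons] at h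
        exact absurd h.1 (by decide)
      · rw [ht, List.cons_prefix_cons] at h
        exact absurd h.1 (by decide)
      · exact hu.2 h

end TH465.Fr
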