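import Mathlib
import Pool.Agent.TH465.Fr.Seq
import Pool.Agent.TH465.Fr.Words

/-!
Frequencies of ones for `v = 1^31 0^17` and `w = (011)^16`.
-/

set_option autoImplicit false

namespace TH465.Fr

open Finset Filter Topology

/-- The number of words of length `n` avoiding `w`. -/
noncomputable def A (w : List Bool) (n : ℕ) : ℝ := ((Om w n).card : ℝ)

/-- The total number of ones in the words of length `n` avoiding `w`. -/
noncomputable def B (w : List Bool) (n : ℕ) : ℝ := ∑ u ∈ Om w n, (u.count true : ℝ)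

/-- The number of words of length `n` in which `w` occurs exactly once, as a prefix. -/
noncomputable def P (w : List Bool) (n : ℕ) : ℝ := ((Pr w n).card : ℝ)

/-- The total number of ones in these words. -/
noncomputable def PB (w : List Bool) (n : ℕ) : ℝ := ∑ u ∈ Pr w n, (u.count true : ℝ)

theorem A_eq (w : List Bool) (n : ℕ) : A w n = ∑ _u ∈ Om w n, (1 : ℝ) := by simp [A]

theorem P_eq (w : List Bool) (n : ℕ) : P w n = ∑ _u ∈ Pr w n, (1 : ℝ) := by simp [P]

theorem A_succ (w : List Bool) (n : ℕ) : A w (n + 1) = 2 * A w n - P w (n + 1) := by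
  have h := sum_cons w n (fun _ => 1)
  rw [← A_eq, ← P_eq, Finset.sum_add_distrib, ← A_eq] at h
  linarith

theorem B_succ (w : List Bool) (n : ℕ) :
    B w (n + 1) = 2 * B w n + A w n - PB w (n + 1) := by
  have h := sum_cons w n (fun u => (u.count true : ℝ))
  have h2 : ∑ u ∈ Om w n, (((false :: u).count true : ℝ) + ((true :: u).count true : ℝ)) =
      2 * B w n + A w n := by
    rw [B, A_eq, Finset.mul_sum, ← Finset.sum_add_distrib]
    refine Finset.sum_congr rfl fun u _ => ?_
    simp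
    ring
  rw [h2] at h
  change B w (n + 1) + PB w (n + 1) = _ at h
  linarith

/-! ### The recurrences -/

/-- The word `1^31 0^17`. -/
def vv : List Bool := List.replicate 31 true ++ List.replicate 17 false

theorem vv_length : vv.length = 48 := by decide +kernel

theorem vv_count : vv.count true = 31 := by decide +kernel

theorem ww_count : ww.count true = 32 := by decide +kernel

theorem rr_count : rr.count true = 2 := by decide +kernel

theorem vv_unbordered : ∀ s ∈ vv.tails, s <+: vv → s = [] ∨ s = vv := by decide +kernel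

theorem A_vv (n : ℕ) : A vv (n + 48) = 2 * A vv (n + 47) - A vv n := by
  have h1 := A_succ vv (n + 47)
  have h2 := sum_Pr_unbordered vv 48 vv_length (by norm_num)
    (fun s h1 h2 => vv_unbordered s ((List.mem_tails _ _).mpr h1) h2) n (fun _ => 1)
  rw [← P_eq, ← A_eq] at h2
  rw [show n + 47 + 1 = n + 48 by omega] at h1
  linarith

theorem B_vv (n : ℕ) :
    B vv (n + 48) = 2 * B vv (n + 47) + A vv (n + 47) - B vv n - 31 * A vv n := by
  have h1 := B_succ vv (n + 47)
  have h2 := sum_Pr_unbordered vv 48 vv_length (by norm_num)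
    (fun s h1 h2 => vv_unbordered s ((List.mem_tails _ _).mpr h1) h2) n
    (fun u => (u.count true : ℝ))
  have h3 : ∑ u ∈ Om vv n, (((vv ++ u).count true : ℕ) : ℝ) = 31 * A vv n + B vv n := by
    rw [B, A_eq, Finset.mul_sum, ← Finset.sum_add_distrib]
    refine Finset.sum_congr rfl fun u _ => ?_
    rw [List.count_append, vv_count]
    push_cast
    ring
  rw [h3] at h2
  change PB vv (n + 48) = _ at h2
  rw [show n + 47 + 1 = n + 48 by omega] at h1
  linarith

theorem A_ww (n : ℕ) : A ww (n + 51) = 2 * A ww (n + 50) - 2 * A ww (n + 2) + A ww n := by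
  have h1 := A_succ ww (n + 50)
  have h2 := sum_Pr_ww n (fun _ => 1)
  rw [← P_eq, Finset.sum_add_distrib, ← A_eq, ← A_eq] at h2
  rw [show n + 50 + 1 = n + 51 by omega] at h1
  linarith

theorem B_ww (n : ℕ) : B ww (n + 51) = 2 * B ww (n + 50) + A ww (n + 50) - 2 * B ww (n + 2)
    - 65 * A ww (n + 2) + B ww n + 34 * A ww n := by
  have h1 := B_succ ww (n + 50)
  have h2 := sum_Pr_ww n (fun u => (u.count true : ℝ))
  have h3 : ∑ u ∈ Om ww n, (((ww ++ (rr ++ u)).count true : ℕ) : ℝ) =
      34 * A ww n + B ww n := by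
    rw [B, A_eq, Finset.mul_sum, ← Finset.sum_add_distrib]
    refine Finset.sum_congr rfl fun u _ => ?_
    rw [List.count_append, List.count_append, ww_count, rr_count]
    push_cast
    ring
  have h4 : ∑ u ∈ Om ww (n + 2), ((((ww ++ false :: u).count true : ℕ) : ℝ) +
      (((ww ++ true :: u).count true : ℕ) : ℝ)) = 65 * A ww (n + 2) + 2 * B ww (n + 2) := by
    rw [B, A_eq, Finset.mul_sum, Finset.mul_sum, ← Finset.sum_add_distrib]
    refine Finset.sum_congr rfl fun u _ => ?_
    rw [List.count_append, List.count_append, ww_count]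
    simp
    ring
  rw [h3, h4] at h2
  change PB ww (n + 51) + _ = _ at h2
  rw [show n + 50 + 1 = n + 51 by omega] at h1
  linarith

/-! ### Initial values -/

theorem A_zero (w : List Bool) (hw : w ≠ []) : A w 0 = 1 := by
  have : Om w 0 = {[]} := by
    ext u
    rw [mem_Om, mem_singleton]
    constructor
    · intro h
      exact List.length_eq_zero_iff.mp h.1
    · rintro rfl
      refine ⟨rfl, fun h => hw ?_⟩
      exact List.eq_nil_of_infix_nil h
  simp [A, this]

theorem P_small (w : List Bool) (n : ℕ) (hn : n < w.length) : P w n = 0 := by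
  have : Pr w n = ∅ := by
    rw [Finset.eq_empty_iff_forall_notMem]
    intro u hu
    rw [mem_Pr] at hu
    have := hu.2.1.length_le
    omega
  simp [P, this]

theorem A_small (w : List Bool) (hw : w ≠ []) : ∀ n, n < w.length → A w n = 2 ^ n := by
  intro n
  induction n with
  | zero => intro _; simpa using A_zero w hw
  | succ n ih =>
    intro hn
    rw [A_succ, ih (by omega), P_small w (n + 1) hn]
    ring

theorem A_nonneg (w : List Bool) (n : ℕ) : 0 ≤ A w n := by
  unfold A
  positivity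

theorem A_le (w : List Bool) (hw : w ≠ []) : ∀ n, A w n ≤ 2 ^ n := by
  intro n
  induction n with
  | zero => rw [A_zero w hw]; norm_num
  | succ n ih =>
    have h1 := A_succ w n
    have h2 : 0 ≤ P w (n + 1) := by unfold P; positivity
    rw [pow_succ]
    linarith

theorem P_le (w : List Bool) (hw : w ≠ []) (n : ℕ) : P w (n + 1) ≤ A w n := by
  unfold P A
  norm_cast
  refine Finset.card_le_card_of_injOn List.tail ?_ ?_
  · intro u hu
    have hu' := mem_Pr.mp (Finset.mem_coe.mp hu)
    refine Finset.mem_coe.mpr (mem_Om.mpr ⟨?_, hu'.2.2⟩)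
    rw [List.length_tail, hu'.1]
    omega
  · intro u hu u' hu' h
    have h1 := mem_Pr.mp (Finset.mem_coe.mp hu)
    have h2 := mem_Pr.mp (Finset.mem_coe.mp hu')
    obtain ⟨c, t, rfl⟩ : ∃ c t, w = c :: t := by
      cases w with
      | nil => exact absurd rfl hw
      | cons c t => exact ⟨c, t, rfl⟩
    obtain ⟨s, hs⟩ := h1.2.1
    obtain ⟨s', hs'⟩ := h2.2.1
    subst hs
    subst hs'
    simpa using h

theorem A_mono (w : List Bool) (hw : w ≠ []) (n : ℕ) : A w n ≤ A w (n + 1) := by
  have h1 := A_succ w n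
  have h2 := P_le w hw n
  linarith

/-! ### The limit -/

/-- The coefficients of the recurrence. -/
noncomputable def gg (m : ℕ) (p q : ℝ) (i : ℕ) : ℝ := if i < m then p else q

theorem tele (m : ℕ) (p q : ℝ) (f : ℕ → ℝ) (K : ℕ) (h : m ≤ K) :
    ∑ i ∈ range K, gg m p q i * (f (i + 1) - f i) = p * (f m - f 0) + q * (f K - f m) := by
  induction K, h using Nat.le_induction with
  | base =>
    have : ∀ i ∈ range m, gg m p q i * (f (i + 1) - f i) = p * (f (i + 1) - f i) := by
      intro i hi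
      simp [gg, mem_range.mp hi]
    rw [Finset.sum_congr rfl this, ← Finset.mul_sum, Finset.sum_range_sub]
    ring
  | succ K hK ih =>
    rw [Finset.sum_range_succ, ih]
    have : gg m p q K = q := by simp [gg, hK]
    rw [this]
    ring

theorem gg_sum (m : ℕ) (p q : ℝ) (K : ℕ) (h : m ≤ K) :
    ∑ i ∈ range K, gg m p q i = p * m + q * (K - m) := by
  have := tele m p q (fun i => (i : ℝ)) K h
  simpa using this

theorem gg_abs (m : ℕ) (p q c : ℝ) (K : ℕ) (hp : |p| ≤ c) (hq : |q| ≤ c) :
    ∑ i ∈ range K, |gg m p q i| ≤ K * c := by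
  have : ∀ i ∈ range K, |gg m p q i| ≤ c := by
    intro i _
    unfold gg
    split_ifs
    · exact hp
    · exact hq
  refine (Finset.sum_le_sum this).trans ?_
  simp

theorem base_pos (w : List Bool) (hw : w ≠ []) (K : ℕ) (g : ℕ → ℝ) (μ : ℝ) (hμ : 0 < μ)
    (hμ2 : μ ≤ 2) (hg : ∑ i ∈ range K, |g i| ≤ 1 / 16) (hA : 2 ^ K / 8 ≤ A w K) :
    0 < A w K / μ ^ K - ∑ i ∈ range K, g i * (A w i / μ ^ i) := by
  have hpK : 0 < μ ^ K := by positivity
  have h1 : ∀ i ∈ range K, g i * (A w i / μ ^ i) ≤ |g i| * (2 ^ K / μ ^ K) := by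
    intro i hi
    have hi' := mem_range.mp hi
    have hx0 : 0 ≤ A w i / μ ^ i := div_nonneg (A_nonneg w i) (by positivity)
    have hx1 : A w i / μ ^ i ≤ (2 / μ) ^ i := by
      rw [div_pow]
      exact div_le_div_of_nonneg_right (A_le w hw i) (by positivity)
    have hx2 : (2 / μ) ^ i ≤ (2 / μ) ^ K := by
      apply pow_le_pow_right₀ _ hi'.le
      rw [le_div_iff₀ hμ]
      linarith
    rw [← div_pow]
    calc g i * (A w i / μ ^ i) ≤ |g i| * (A w i / μ ^ i) :=
          mul_le_mul_of_nonneg_right (le_abs_self _) hx0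
      _ ≤ |g i| * (2 / μ) ^ K := mul_le_mul_of_nonneg_left (hx1.trans hx2) (abs_nonneg _)
  have h2 := Finset.sum_le_sum h1
  rw [← Finset.sum_mul] at h2
  have h3 : 0 < (2 : ℝ) ^ K / μ ^ K := by positivity
  have h4 : (2 : ℝ) ^ K / μ ^ K / 8 ≤ A w K / μ ^ K := by
    rw [div_right_comm]
    exact div_le_div_of_nonneg_right hA hpK.le
  nlinarith

theorem vv_limit (μ : ℝ) (h1 : 3 / 2 ≤ μ) (h2 : μ ≤ 2) (hroot : μ ^ 48 + 1 = 2 * μ ^ 47) :
    Tendsto (fun n : ℕ => B vv n / (n * A vv n)) atTop
      (𝓝 ((1 / μ - 31 / μ ^ 48) / (1 - 47 / μ ^ 48))) := by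
  have hμ : 0 < μ := by linarith
  have hne : vv ≠ [] := by
    intro h
    have := vv_length
    rw [h] at this
    simp at this
  set ε := 1 / μ ^ 48 with hε
  have hε0 : 0 < ε := by positivity
  have hε1 : ε ≤ (2 / 3) ^ 48 := by
    rw [hε, ← one_div_pow]
    apply pow_le_pow_left₀ (by positivity)
    rw [div_le_iff₀ hμ]
    linarith
  have h2μ : 2 / μ = 1 + ε := by
    rw [hε]
    field_simp
    linear_combination (-1 : ℝ) * hroot
  set g := gg 0 0 ε with hg
  have hgabs : ∑ i ∈ range 47, |g i| ≤ 1 / 16 := by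
    refine (gg_abs 0 0 ε ε 47 (by simpa using hε0.le) (le_of_eq (abs_of_pos hε0))).trans ?_
    calc ((47 : ℕ) : ℝ) * ε ≤ 47 * (2 / 3) ^ 48 := by
          push_cast
          exact mul_le_mul_of_nonneg_left hε1 (by norm_num)
      _ ≤ 1 / 16 := by norm_num
  set x : ℕ → ℝ := fun n => A vv n / μ ^ n with hx
  set y : ℕ → ℝ := fun n => B vv n / μ ^ n with hy
  have hxr : ∀ n, x (n + 48) = 2 / μ * x (n + 47) - ε * x n := by
    intro n
    simp only [hx, hε]
    rw [A_vv]
    field_simp
    ring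
  have hyr : ∀ n, y (n + 48) = 2 / μ * y (n + 47) - ε * y n +
      (1 / μ * x (n + 47) - 31 * ε * x n) := by
    intro n
    simp only [hx, hy, hε]
    rw [B_vv]
    field_simp
    ring
  have hlim := ratio_limit 47 g (hgabs.trans (by norm_num)) x y
    (fun n => 1 / μ * x (n + 47) - 31 * ε * x n) (1 / μ - 31 * ε) ?_ ?_ ?_ ?_
  · rw [hg, gg_sum 0 0 ε 47 (by norm_num)] at hlim
    have hval : (1 / μ - 31 * ε) / (1 - (0 * ((0 : ℕ) : ℝ) + ε * (((47 : ℕ) : ℝ) - ((0 : ℕ) : ℝ)))) =
        (1 / μ - 31 / μ ^ 48) / (1 - 47 / μ ^ 48) := by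
      rw [hε]
      push_cast
      congr 1 <;> ring
    rw [hval] at hlim
    refine hlim.congr fun n => ?_
    simp only [hx, hy]
    have hp : μ ^ n ≠ 0 := by positivity
    by_cases hn : (n : ℝ) * A vv n = 0
    · rw [hn]
      rcases mul_eq_zero.mp hn with h | h
      · rw [h]; simp
      · rw [h]; simp
    · have hn1 : (n : ℝ) ≠ 0 := fun h => hn (by rw [h]; ring)
      have hn2 : A vv n ≠ 0 := fun h => hn (by rw [h]; ring)
      field_simp
  · intro n
    have ht := tele 0 0 ε (fun i => x (n + i)) 47 (by norm_num)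
    have hr : ∀ i, x (n + 1 + i) = x (n + (i + 1)) := fun i => by congr 1; omega
    simp only [hr]
    rw [show (∑ i ∈ range 47, g i * (x (n + (i + 1)) - x (n + i))) =
      0 * (x (n + 0) - x (n + 0)) + ε * (x (n + 47) - x (n + 0)) from ht]
    have := hxr n
    rw [h2μ] at this
    rw [show n + (47 + 1) = n + 48 by omega, this]
    simp only [add_zero]
    ring
  · intro n
    have ht := tele 0 0 ε (fun i => y (n + i)) 47 (by norm_num)
    have hr : ∀ i, y (n + 1 + i) = y (n + (i + 1)) := fun i => by congr 1; omega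
    simp only [hr]
    rw [show (∑ i ∈ range 47, g i * (y (n + (i + 1)) - y (n + i))) =
      0 * (y (n + 0) - y (n + 0)) + ε * (y (n + 47) - y (n + 0)) from ht]
    have := hyr n
    rw [h2μ] at this
    rw [show n + (47 + 1) = n + 48 by omega, this]
    simp only [add_zero]
    ring
  · intro c hc
    have e1 : Tendsto (fun n => x (n + 47)) atTop (𝓝 c) := (tendsto_add_atTop_iff_nat 47).mpr hc
    have := (e1.const_mul (1 / μ)).sub (hc.const_mul (31 * ε))
    rw [sub_mul]
    exact this
  · refine base_pos vv hne 47 g μ hμ h2 hgabs ?_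
    rw [A_small vv hne 47 (by rw [vv_length]; norm_num)]
    norm_num

theorem ww_limit (μ : ℝ) (h1 : 3 / 2 ≤ μ) (h2 : μ ≤ 2)
    (hroot : μ ^ 51 + 2 * μ ^ 2 = 2 * μ ^ 50 + 1) :
    Tendsto (fun n : ℕ => B ww n / (n * A ww n)) atTop
      (𝓝 ((1 / μ - 65 / μ ^ 49 + 34 / μ ^ 51) / (1 - 96 / μ ^ 49 + 50 / μ ^ 51))) := by
  have hμ : 0 < μ := by linarith
  have hne : ww ≠ [] := by
    intro h
    have := ww_length
    rw [h] at this
    simp at this
  set δ := 1 / μ ^ 49 with hδ
  set δ' := 1 / μ ^ 51 with hδ'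
  have hδ0 : 0 < δ := by positivity
  have hδ'0 : 0 < δ' := by positivity
  have hδδ' : δ' ≤ δ := by
    rw [hδ, hδ']
    apply one_div_le_one_div_of_le (by positivity)
    exact pow_le_pow_right₀ (by linarith) (by norm_num)
  have hδ1 : δ ≤ (2 / 3) ^ 49 := by
    rw [hδ, ← one_div_pow]
    apply pow_le_pow_left₀ (by positivity)
    rw [div_le_iff₀ hμ]
    linarith
  have h2μ : 2 / μ = 1 + 2 * δ - δ' := by
    rw [hδ, hδ']
    field_simp
    linear_combination (-1 : ℝ) * hroot
  set g := gg 2 (-δ') (2 * δ - δ') with hg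
  have hgabs : ∑ i ∈ range 50, |g i| ≤ 1 / 16 := by
    refine (gg_abs 2 (-δ') (2 * δ - δ') (2 * δ) 50 ?_ ?_).trans ?_
    · rw [abs_neg, abs_of_pos hδ'0]; linarith
    · rw [abs_of_pos (by linarith)]; linarith
    · calc ((50 : ℕ) : ℝ) * (2 * δ) ≤ 50 * (2 * (2 / 3) ^ 49) := by
            push_cast
            linarith
        _ ≤ 1 / 16 := by norm_num
  set x : ℕ → ℝ := fun n => A ww n / μ ^ n with hx
  set y : ℕ → ℝ := fun n => B ww n / μ ^ n with hy
  have hxr : ∀ n, x (n + 51) = 2 / μ * x (n + 50) - 2 * δ * x (n + 2) + δ' * x n := by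
    intro n
    simp only [hx, hδ, hδ']
    rw [A_ww]
    field_simp
    ring
  have hyr : ∀ n, y (n + 51) = 2 / μ * y (n + 50) - 2 * δ * y (n + 2) + δ' * y n +
      (1 / μ * x (n + 50) - 65 * δ * x (n + 2) + 34 * δ' * x n) := by
    intro n
    simp only [hx, hy, hδ, hδ']
    rw [B_ww]
    field_simp
    ring
  have hlim := ratio_limit 50 g (hgabs.trans (by norm_num)) x y
    (fun n => 1 / μ * x (n + 50) - 65 * δ * x (n + 2) + 34 * δ' * x n)
    (1 / μ - 65 * δ + 34 * δ') ?_ ?_ ?_ ?_
  · rw [hg, gg_sum 2 (-δ') (2 * δ - δ') 50 (by norm_num)] at hlim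
    have hval : (1 / μ - 65 * δ + 34 * δ') / (1 - (-δ' * ((2 : ℕ) : ℝ) +
        (2 * δ - δ') * (((50 : ℕ) : ℝ) - ((2 : ℕ) : ℝ)))) =
        (1 / μ - 65 / μ ^ 49 + 34 / μ ^ 51) / (1 - 96 / μ ^ 49 + 50 / μ ^ 51) := by
      rw [hδ, hδ']
      push_cast
      congr 1 <;> ring
    rw [hval] at hlim
    refine hlim.congr fun n => ?_
    simp only [hx, hy]
    have hp : μ ^ n ≠ 0 := by positivity
    by_cases hn : (n : ℝ) * A ww n = 0
    · rw [hn]
      rcases mul_eq_zero.mp hn with h | h
      · rw [h]; simp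
      · rw [h]; simp
    · have hn1 : (n : ℝ) ≠ 0 := fun h => hn (by rw [h]; ring)
      have hn2 : A ww n ≠ 0 := fun h => hn (by rw [h]; ring)
      field_simp
  · intro n
    have ht := tele 2 (-δ') (2 * δ - δ') (fun i => x (n + i)) 50 (by norm_num)
    have hr : ∀ i, x (n + 1 + i) = x (n + (i + 1)) := fun i => by congr 1; omega
    simp only [hr]
    rw [show (∑ i ∈ range 50, g i * (x (n + (i + 1)) - x (n + i))) =
      -δ' * (x (n + 2) - x (n + 0)) + (2 * δ - δ') * (x (n + 50) - x (n + 2)) from ht]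
    have := hxr n
    rw [h2μ] at this
    rw [show n + (50 + 1) = n + 51 by omega, this]
    simp only [add_zero]
    ring
  · intro n
    have ht := tele 2 (-δ') (2 * δ - δ') (fun i => y (n + i)) 50 (by norm_num)
    have hr : ∀ i, y (n + 1 + i) = y (n + (i + 1)) := fun i => by congr 1; omega
    simp only [hr]
    rw [show (∑ i ∈ range 50, g i * (y (n + (i + 1)) - y (n + i))) =
      -δ' * (y (n + 2) - y (n + 0)) + (2 * δ - δ') * (y (n + 50) - y (n + 2)) from ht]
    have := hyr n
    rw [h2μ] at this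
    rw [show n + (50 + 1) = n + 51 by omega, this]
    simp only [add_zero]
    ring
  · intro c hc
    have e1 : Tendsto (fun n => x (n + 50)) atTop (𝓝 c) := (tendsto_add_atTop_iff_nat 50).mpr hc
    have e2 : Tendsto (fun n => x (n + 2)) atTop (𝓝 c) := (tendsto_add_atTop_iff_nat 2).mpr hc
    have := ((e1.const_mul (1 / μ)).sub (e2.const_mul (65 * δ))).add (hc.const_mul (34 * δ'))
    rw [add_mul, sub_mul]
    exact this
  · refine base_pos ww hne 50 g μ hμ h2 hgabs ?_
    have e1 := A_mono ww hne 47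
    have e2 := A_mono ww hne 48
    have e3 := A_mono ww hne 49
    have e0 := A_small ww hne 47 (by rw [ww_length]; norm_num)
    rw [e0] at e1
    norm_num at e1 e2 e3 ⊢
    linarith

end TH465.Fr
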